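import Pool.Agent.MP_d12f76_al.Core

/-!
Abelian sections of adjoint groups of finite rings: if a finite group `G` is isomorphic to the
adjoint group `(A, ∘)`, `x ∘ y = x + y + x y`, of a ring `A` (associative, without unit), then `G`
has an abelian section whose order is at least `|G|^(1/21)`.
-/

namespace Pool.Agent.Results.MP_d12f76_al.AdjointGroups

open Pool.Agent.MP_d12f76_al

section

variable {G A : Type*} [Group G] [NonUnitalRing A] (e : G ≃ A)

theorem map_one' (he : ∀ g h : G, e (g * h) = e g + e h + e g * e h) : e 1 = 0 := by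
  have h := he 1 (e.symm 0)
  rw [one_mul, Equiv.apply_symm_apply, mul_zero, add_zero, add_zero] at h
  exact h.symm

theorem map_inv' (he : ∀ g h : G, e (g * h) = e g + e h + e g * e h) (g : G) :
    e g + e g⁻¹ + e g * e g⁻¹ = 0 := by
  rw [← he, mul_inv_cancel, map_one' e he]

/-- All left and right multiplications are nilpotent. -/
theorem nil [Finite A] (he : ∀ g h : G, e (g * h) = e g + e h + e g * e h) (z : A) :
    ∃ k, (∀ x, (Lm z)^[k] x = 0) ∧ ∀ x, (Rm z)^[k] x = 0 := by
  -- two iterates coincide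
  obtain ⟨i, j, hij, hf⟩ : ∃ i j : ℕ, i < j ∧ (Lm z : A → A)^[i] = (Lm z : A → A)^[j] := by
    obtain ⟨i, j, hne, hf⟩ := Finite.exists_ne_map_eq_of_infinite
      (fun n : ℕ => ((Lm z : A → A)^[n] : A → A))
    rcases lt_or_gt_of_ne hne with h | h
    · exact ⟨i, j, h, hf⟩
    · exact ⟨j, i, h, hf.symm⟩
  obtain ⟨d, rfl⟩ := Nat.exists_eq_add_of_lt hij
  -- periodicity from `i` on
  have per : ∀ n, i ≤ n → ∀ t : ℕ, (Lm z : A → A)^[n + t * (d + 1)] = (Lm z : A → A)^[n] := by
    intro n hn t
    induction t with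
    | zero => simp
    | succ t ih =>
      obtain ⟨m, rfl⟩ := Nat.exists_eq_add_of_le hn
      have h1 : i + m + (t + 1) * (d + 1) = (m + t * (d + 1)) + (i + d + 1) := by ring
      have h2 : i + m + t * (d + 1) = (m + t * (d + 1)) + i := by ring
      rw [h1, Function.iterate_add, ← hf, ← Function.iterate_add, ← h2, ih]
  -- `n` with `L^(2n) = L^n`, `n ≥ 1`
  set n := (i + 1) * (d + 1) with hn
  have hn1 : i ≤ n := by nlinarith
  have hn0 : 0 < n := by positivity
  have h2n : (Lm z : A → A)^[n + n] = (Lm z : A → A)^[n] := per n hn1 (i + 1)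
  -- `w = z^n`
  set w : A := (Lm z)^[n - 1] z with hw
  have hwx : ∀ x, w * x = (Lm z)^[n] x := by
    intro x
    rw [hw, ← iter_mul]
    conv_rhs => rw [show n = (n - 1) + 1 by omega, Function.iterate_succ_apply]
    rfl
  have hww : ∀ x, w * (w * x) = w * x := by
    intro x
    rw [hwx, hwx, ← Function.iterate_add_apply, h2n]
  have hinv := map_inv' e he (e.symm (-w))
  rw [Equiv.apply_symm_apply] at hinv
  have hw2 : w * w = 0 := by
    have h3 : w * (-w + e (e.symm (-w))⁻¹ + -w * e (e.symm (-w))⁻¹) = 0 := by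
      rw [hinv, mul_zero]
    rw [mul_add, mul_add, neg_mul, mul_neg, mul_neg, hww] at h3
    have h4 : -(w * w) = 0 := by
      rw [add_neg_cancel_right] at h3
      exact h3
    exact neg_eq_zero.1 h4
  have hL : ∀ x, (Lm z)^[n + n] x = 0 := by
    intro x
    rw [Function.iterate_add_apply, ← hwx, ← hwx, ← mul_assoc, hw2, zero_mul]
  refine ⟨n + n + 1, fun x => ?_, fun x => ?_⟩
  · rw [Function.iterate_succ_apply, hL]
  · rw [Function.iterate_succ_apply']
    change (Rm z)^[n + n] x * z = 0
    rw [← mul_iter, hL, mul_zero]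

/-- The subgroup of `G` attached to a multiplicatively closed additive subgroup. -/
def sub [Finite G] (he : ∀ g h : G, e (g * h) = e g + e h + e g * e h) (E : AddSubgroup A)
    (hE : ∀ x ∈ E, ∀ y ∈ E, x * y ∈ E) : Subgroup G where
  carrier := {g | e g ∈ E}
  one_mem' := by
    change e 1 ∈ E
    rw [map_one' e he]
    exact E.zero_mem
  mul_mem' := by
    intro g h hg hh
    change e (g * h) ∈ E
    rw [he]
    exact E.add_mem (E.add_mem hg hh) (hE _ hg _ hh)
  inv_mem' := by
    intro g hg
    let S : Submonoid G :=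
      { carrier := {g | e g ∈ E}
        one_mem' := by
          change e 1 ∈ E
          rw [map_one' e he]
          exact E.zero_mem
        mul_mem' := by
          intro g h hg hh
          change e (g * h) ∈ E
          rw [he]
          exact E.add_mem (E.add_mem hg hh) (hE _ hg _ hh) }
    have hgS : g ∈ S := hg
    have h1 : g⁻¹ ∈ Submonoid.powers g :=
      mem_powers_iff_mem_zpowers.2 (Subgroup.inv_mem _ (Subgroup.mem_zpowers g))
    have h2 : Submonoid.powers g ≤ S := Submonoid.powers_le.2 hgS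
    exact h2 h1

theorem card_sub [Finite G] (he : ∀ g h : G, e (g * h) = e g + e h + e g * e h)
    (E : AddSubgroup A) (hE : ∀ x ∈ E, ∀ y ∈ E, x * y ∈ E) :
    Nat.card (sub e he E hE) = Nat.card E :=
  Nat.card_congr (e.subtypeEquiv (fun _ => Iff.rfl))

end

/-- Let `A` be a finite ring (associative, not necessarily with unit) whose circle operation
`x ∘ y = x + y + x y` is a group operation, and `G` a nontrivial group isomorphic to `(A, ∘)`.
Then `G` has an abelian section `H / K` with `|G| ≤ |H/K| ^ 21` and `|G| < |H/K| ^ 22`. -/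
theorem result {G A : Type*} [Group G] [Nontrivial G] [NonUnitalRing A] [Finite A]
    (e : G ≃ A) (he : ∀ g h : G, e (g * h) = e g + e h + e g * e h) :
    ∃ H K : Subgroup G, K ≤ H ∧ (K.subgroupOf H).Normal ∧
      (∀ x ∈ H, ∀ y ∈ H, x * y * x⁻¹ * y⁻¹ ∈ K) ∧
      Nat.card G ≤ (K.subgroupOf H).index ^ 21 ∧
      (Nat.card G : ℝ) < ((K.subgroupOf H).index : ℝ) ^ (22 : ℝ) := by
  have : Finite G := Finite.of_equiv A e.symm
  obtain ⟨E, F, hFE, hEE, hcard⟩ := exists_section (A := A) (nil e he)
  have hE : ∀ x ∈ E, ∀ y ∈ E, x * y ∈ E := fun x hx y hy => hFE (hEE x hx y hy)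
  have hF : ∀ x ∈ F, ∀ y ∈ F, x * y ∈ F := fun x hx y hy => hEE x (hFE hx) y (hFE hy)
  set H := sub e he E hE with hH
  set K := sub e he F hF with hK
  have memH : ∀ g, g ∈ H ↔ e g ∈ E := fun g => Iff.rfl
  have memK : ∀ g, g ∈ K ↔ e g ∈ F := fun g => Iff.rfl
  have hKH : K ≤ H := fun g hg => hFE hg
  have hcomm : ∀ x ∈ H, ∀ y ∈ H, x * y * x⁻¹ * y⁻¹ ∈ K := by
    intro x hx y hy
    set c := x * y * x⁻¹ * y⁻¹ with hc
    have hcH : c ∈ H := H.mul_mem (H.mul_mem (H.mul_mem hx hy) (H.inv_mem hx)) (H.inv_mem hy)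
    have h1 : c * (y * x) = x * y := by rw [hc]; group
    have h2 := he c (y * x)
    rw [h1, he x y, he y x] at h2
    have h3 : e c = e x * e y - e y * e x - e c * (e y + e x + e y * e x) := by
      have : e c = (e x + e y + e x * e y) - (e y + e x + e y * e x) -
          e c * (e y + e x + e y * e x) := by
        rw [h2]; abel
      have h4 : (e x + e y + e x * e y) - (e y + e x + e y * e x) = e x * e y - e y * e x := by
        abel
      rw [h4] at this
      exact this
    rw [memK, h3]
    refine F.sub_mem (F.sub_mem (hEE _ hx _ hy) (hEE _ hy _ hx)) (hEE _ hcH _ ?_)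
    exact E.add_mem (E.add_mem hy hx) (hE _ hy _ hx)
  have hnormal : (K.subgroupOf H).Normal := by
    constructor
    rintro ⟨n, hn⟩ hnK ⟨g, hg⟩
    have hnK' : n ∈ K := hnK
    change g * n * g⁻¹ ∈ K
    have h1 := hcomm g hg n hn
    have h2 : g * n * g⁻¹ = (g * n * g⁻¹ * n⁻¹) * n := by group
    rw [h2]
    exact K.mul_mem h1 hnK'
  have hindex : (K.subgroupOf H).index = F.relIndex E := by
    have k1 : Nat.card K * K.relIndex H = Nat.card H := by
      rw [← Subgroup.relIndex_bot_left, ← Subgroup.relIndex_bot_left H]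
      exact Subgroup.relIndex_mul_relIndex _ _ _ bot_le hKH
    have k2 : Nat.card F * F.relIndex E = Nat.card E := by
      rw [← AddSubgroup.relIndex_bot_left, ← AddSubgroup.relIndex_bot_left E]
      exact AddSubgroup.relIndex_mul_relIndex _ _ _ bot_le hFE
    have k3 : Nat.card H = Nat.card E := card_sub e he E hE
    have k4 : Nat.card K = Nat.card F := card_sub e he F hF
    have hFpos : 0 < Nat.card F := Nat.card_pos
    rw [k3, k4, ← k2] at k1
    exact Nat.eq_of_mul_eq_mul_left hFpos k1
  have hGA : Nat.card G = Nat.card A := Nat.card_congr e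
  have hle : Nat.card G ≤ (K.subgroupOf H).index ^ 21 := by
    rw [hGA, hindex]
    exact hcard
  refine ⟨H, K, hKH, hnormal, hcomm, hle, ?_⟩
  have hone : 1 < Nat.card G := Finite.one_lt_card
  have hi : 1 < (K.subgroupOf H).index := by
    by_contra hcon
    have h1 : (K.subgroupOf H).index ≤ 1 := by omega
    have h2 : (K.subgroupOf H).index ^ 21 ≤ 1 := by
      calc (K.subgroupOf H).index ^ 21 ≤ 1 ^ 21 := Nat.pow_le_pow_left h1 21
        _ = 1 := one_pow _
    omega
  have hlt : Nat.card G < (K.subgroupOf H).index ^ 22 :=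
    lt_of_le_of_lt hle (Nat.pow_lt_pow_right hi (by norm_num))
  have h22 : ((K.subgroupOf H).index : ℝ) ^ (22 : ℝ) =
      (((K.subgroupOf H).index ^ 22 : ℕ) : ℝ) := by
    rw [Nat.cast_pow, ← Real.rpow_natCast]
    norm_num
  rw [h22]
  exact_mod_cast hlt

end Pool.Agent.Results.MP_d12f76_al.AdjointGroups
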