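import Pool.Agent.PWR.QS

/-!
Abelian sections of finite `p`-groups: reduction of Q1 to small exponent and small class. For
every `C > 0`, Q1 is equivalent to Q1 for the `p`-groups `P` of exponent less than
`(p / C) log_p |P|` and class less than `(1 / C) log_p |P|`. For a finite `p`-group `P` let `P_i`
be the subgroup generated by the `p ^ i`-th powers, `Ω_j` the subgroup generated by the elements
of order dividing `p ^ j` and `γ_m` the term of the lower central series, `γ_1 = P`. If all
subgroups of `P` are generated by `p ^ k` elements, and by `m` elements, then `P` has an abelian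
section `A` with `|P_k γ_m| ≤ |A| ^ 12`; and Q1 for the `p`-groups of rank at most `p ^ k` is
equivalent to Q1 for those of exponent dividing `p ^ k` and class less than `p ^ k`. If all
subgroups of `P` are generated by `r` elements, then `P` has an abelian section `A` with
`|P| ≤ |A| ^ (⌈log₂ r⌉ + 12)`; powerful `p`-groups, `p = 2` included, have an abelian section `A`
with `|P| ≤ |A| ^ 11`.

`P` is power regular if, for all `i, j ≥ 1`, the commutator subgroup of `P_i` and `P_j` lies in
`P_(i+j)` and the order of `P_i ∩ Ω_j` is the index of `P_(i+j)` in `P_i`. The regular `p`-groups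
of P. Hall and the powerful `p`-groups, `p` odd, are power regular (proved here). A power regular
group `P` has an abelian section `A` with `|P ^ p| ≤ |A| ^ 9`.
-/

namespace Pool.Agent.Results.MP_d12f76_al.PowerRegular

open Pool.Agent.PWR

universe u

/-- `P` is a finite `p`-group, `P_k` is generated by the `p ^ k`-th powers, `γ_m` is the term of
the lower central series, `γ_1 = P`, and `P` has rank at most `r` if every subgroup of `P` is
generated by at most `r` elements. (1) If `P` has rank at most `p ^ k` and at most `m + 1`, it has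
an abelian section `A` with `|N| ≤ |A| ^ 12` for `N = P_k γ_(m+1)` (`pg p P k m`); for real
`c ≥ 0`, if `P / N` has an abelian section `A'` with `|P / N| ≤ |A'| ^ c`, then `P` has one with
`|P| ≤ |A| ^ (c + 12)`. (2) For every real `C`, Q1 is equivalent to Q1 for the class of all `P`
such that, for some `k` and `m`, `x ^ (p ^ (k + 1)) = 1` for all `x`, `|P| > p ^ (C * p ^ k)`,
`γ_(m+1) = 1` (the class of `P` is at most `m`) and `|P| > p ^ (C * m)`: if `C > 0`, these are the
`P` of exponent less than `(p / C) log_p |P|` and class less than `(1 / C) log_p |P|`. For every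
`k`, Q1 for all `P` (and `p`) of rank at most `p ^ k` is equivalent to Q1 for those with
`x ^ (p ^ k) = 1` for all `x` and of class less than `p ^ k`. (3) If `P` has rank at most `r`,
`l = ⌈log₂ r⌉` and `f = r * (l + 1)`, then `P` has an abelian section `A` with
`|P| ≤ |A| ^ (l + 12)` and `|P| ≤ p ^ f * |A| ^ 11`; and `|P| < |A| ^ (l + 13)` if `P` is not
trivial, `|P| < |A| ^ 12` if `|P| > p ^ (12 * f)`. (4) A powerful `P` (`p` odd: the commutators
lie in the subgroup generated by the `p`-th powers; `p = 2`: in the one generated by the fourth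
powers) has an abelian section `A` with `|P| ≤ |A| ^ 10`, and `|P| < |A| ^ 11` if `P` is not
trivial, for `p` odd; with `|P| ≤ |A| ^ 11` and `|P| < |A| ^ 12` for `p = 2`. (5) Regular
`p`-groups, and powerful `p`-groups for `p` odd, are power regular. (6) A power regular finite
`p`-group `P` has an abelian section `A` with `|P ^ p| ≤ |A| ^ 9`, where `P ^ p` is the subgroup
generated by the `p`-th powers; for real `c ≥ 0`, if `P / P ^ p` has an abelian section `A'` with
`|P / P ^ p| ≤ |A'| ^ c`, then `P` has one with `|P| ≤ |A| ^ (c + 9)`. (7) Q1 for all finite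
regular `p`-groups is equivalent to Q1 for all finite groups of prime exponent; more generally
(8), for a class of power regular finite `p`-groups which contains `P / P ^ p` together with `P`,
Q1 for the class is equivalent to Q1 for its members of prime exponent. -/
theorem result :
    (∀ (G : Type u) [Group G] [Finite G] (p : ℕ), p.Prime → IsPGroup p G →
      ∀ k m : ℕ, HasRank G (p ^ k) → HasRank G (m + 1) →
        HasAbSection G (fun n => Nat.card (pg p G k m) ≤ n ^ 12) ∧
        (∀ c : ℝ, 0 ≤ c →
          HasAbSection (G ⧸ pg p G k m) (fun n => (Nat.card (G ⧸ pg p G k m) : ℝ) ≤ (n : ℝ) ^ c) →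
          HasAbSection G fun n => (Nat.card G : ℝ) ≤ (n : ℝ) ^ (c + 12))) ∧
    ((∀ C : ℝ,
      (∃ c : ℝ, ∀ (G : Type u) [Group G] [Finite G] (p : ℕ), p.Prime → IsPGroup p G →
        Nontrivial G → HasAbSection G fun n => (Nat.card G : ℝ) < (n : ℝ) ^ c) ↔
      (∃ c : ℝ, ∀ (G : Type u) [Group G] [Finite G] (p k m : ℕ), p.Prime →
        (∀ x : G, x ^ p ^ (k + 1) = 1) → (⊤ : Subgroup G).lowerCentralSeries m = ⊥ →
        (p : ℝ) ^ (C * (p : ℝ) ^ k) < Nat.card G → (p : ℝ) ^ (C * (m : ℝ)) < Nat.card G →
        Nontrivial G → HasAbSection G fun n => (Nat.card G : ℝ) < (n : ℝ) ^ c)) ∧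
     ∀ k : ℕ,
      (∃ c : ℝ, ∀ (G : Type u) [Group G] [Finite G] (p : ℕ), p.Prime → IsPGroup p G →
        HasRank G (p ^ k) → Nontrivial G →
        HasAbSection G fun n => (Nat.card G : ℝ) < (n : ℝ) ^ c) ↔
      (∃ c : ℝ, ∀ (G : Type u) [Group G] [Finite G] (p : ℕ), p.Prime →
        (∀ x : G, x ^ p ^ k = 1) → (⊤ : Subgroup G).lowerCentralSeries (p ^ k - 1) = ⊥ →
        HasRank G (p ^ k) → Nontrivial G →
        HasAbSection G fun n => (Nat.card G : ℝ) < (n : ℝ) ^ c)) ∧
    (∀ (G : Type u) [Group G] [Finite G] (p : ℕ), p.Prime → IsPGroup p G →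
      ∀ r : ℕ, HasRank G r →
        HasAbSection G fun n =>
          Nat.card G ≤ n ^ (Nat.clog 2 r + 12) ∧
          (Nontrivial G → Nat.card G < n ^ (Nat.clog 2 r + 13)) ∧
          Nat.card G ≤ p ^ (r * (Nat.clog 2 r + 1)) * n ^ 11 ∧
          (p ^ (12 * (r * (Nat.clog 2 r + 1))) < Nat.card G → Nat.card G < n ^ 12)) ∧
    (∀ (G : Type u) [Group G] [Finite G] (p : ℕ), p.Prime → IsPGroup p G →
      (Odd p → Powerful p G →
        HasAbSection G fun n => Nat.card G ≤ n ^ 10 ∧ (Nontrivial G → Nat.card G < n ^ 11)) ∧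
      (p = 2 → Powerful2 G →
        HasAbSection G fun n => Nat.card G ≤ n ^ 11 ∧ (Nontrivial G → Nat.card G < n ^ 12))) ∧
    (∀ (G : Type u) [Group G] [Finite G] (p : ℕ), p.Prime → IsPGroup p G →
      IsRegular p G ∨ (Odd p ∧ Powerful p G) → PowerRegular p G) ∧
    (∀ (G : Type u) [Group G] [Finite G] (p : ℕ), p.Prime → IsPGroup p G → PowerRegular p G →
      HasAbSection G (fun n => Nat.card (pw p G 1) ≤ n ^ 9) ∧
      (∀ c : ℝ, 0 ≤ c →
        HasAbSection (G ⧸ pw p G 1) (fun n => (Nat.card (G ⧸ pw p G 1) : ℝ) ≤ (n : ℝ) ^ c) →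
        HasAbSection G fun n => (Nat.card G : ℝ) ≤ (n : ℝ) ^ (c + 9))) ∧
    ((∃ c : ℝ, ∀ (G : Type u) [Group G] [Finite G] (p : ℕ), p.Prime → IsPGroup p G →
        IsRegular p G → Nontrivial G → HasAbSection G fun n => (Nat.card G : ℝ) < (n : ℝ) ^ c) ↔
      (∃ c : ℝ, ∀ (G : Type u) [Group G] [Finite G] (p : ℕ), p.Prime → (∀ x : G, x ^ p = 1) →
        Nontrivial G → HasAbSection G fun n => (Nat.card G : ℝ) < (n : ℝ) ^ c)) ∧
    (∀ C : ∀ (G : Type u) [Group G], Prop,
      (∀ (G : Type u) [Group G], C G → Finite G ∧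
        ∃ p : ℕ, p.Prime ∧ IsPGroup p G ∧ PowerRegular p G ∧ C (G ⧸ pw p G 1)) →
      ((∃ c : ℝ, ∀ (G : Type u) [Group G], C G → Nontrivial G →
          HasAbSection G fun n => (Nat.card G : ℝ) < (n : ℝ) ^ c) ↔
        (∃ c : ℝ, ∀ (G : Type u) [Group G], C G → Nontrivial G →
          (∃ p : ℕ, p.Prime ∧ ∀ x : G, x ^ p = 1) →
          HasAbSection G fun n => (Nat.card G : ℝ) < (n : ℝ) ^ c))) := by
  refine ⟨fun G _ _ p hp hG k m hk hm => qs_one hp hG k m hk hm,
    ⟨qs_real, qs_three_final⟩, fun G _ _ p hp hG r hr => rank_q1 hp hG r hr,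
    fun G _ _ p hp hG => ⟨fun h2 hP => powerful_q1 hp h2 hG hP, ?_⟩, ?_, ?_,
    final_regular, final_four⟩
  · rintro rfl hP
    exact powerful2_q1 hG hP
  · rintro G _ _ p hp hG (hR | ⟨h2, hP⟩)
    · exact IsRegular.powerRegular hp hG hR
    · exact Powerful.powerRegular hp h2 hG hP
  · intro G _ _ p hp hG hR
    exact ⟨final_one hp hG hR, final_two hp hG hR⟩

end Pool.Agent.Results.MP_d12f76_al.PowerRegular
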