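import Pool.Agent.MP_d12f76_al.LB.Group

/-!
A lower bound for the constant `c` in Q1: there are arbitrarily large finite 2-groups `G` all of
whose abelian sections `A` satisfy `|A| ^ (12/5) ≤ 2 |G|`. Hence `c ≥ 12/5`.

The groups are `P`, `P ≀ C₂`, `(P ≀ C₂) ≀ C₂`, …, where `P` is a group of order `2 ^ 11` without
abelian sections of order more than `2 ^ 5`.
-/

set_option autoImplicit false

namespace Pool.Agent.Results.MP_d12f76_al.TwelveFifths

open Pool.Agent.MP_d12f76_al.LB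
open scoped commutatorElement

/-- the bound for the derived subgroups as a bound for the abelian sections -/
theorem index_le {G : Type} [Group G] [Finite G] {s : ℕ} (h : AbBound G s) (H K : Subgroup G)
    (hKH : K ≤ H) (hab : ∀ x ∈ H, ∀ y ∈ H, x * y * x⁻¹ * y⁻¹ ∈ K) :
    (K.subgroupOf H).index ≤ s := by
  have h1 : (⁅H, H⁆ : Subgroup G) ≤ K := by
    rw [Subgroup.commutator_le]
    exact hab
  have h2 : Nat.card H ≤ s * Nat.card K := (h H).trans (Nat.mul_le_mul_left _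
    (Subgroup.card_le_of_le h1))
  have h3 := (K.subgroupOf H).card_mul_index
  rw [Nat.card_congr (Subgroup.subgroupOfEquivOfLe hKH).toEquiv] at h3
  rw [← h3, mul_comm s] at h2
  exact Nat.le_of_mul_le_mul_left h2 Nat.card_pos

/-- For every `n` there is a group of order `2 ^ (12 * 2 ^ n - 1)` without abelian sections of
order more than `2 ^ (5 * 2 ^ n)`. Consequently, if all nontrivial finite 2-groups `G` have abelian
sections `A` with `|G| ≤ C |A| ^ c` (`C` and `c` are constants), then `c ≥ 12/5`. -/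
theorem result :
    (∀ n : ℕ, ∃ (G : Type) (_ : Group G) (_ : Finite G), Nat.card G = 2 ^ (12 * 2 ^ n - 1) ∧
      ∀ H K : Subgroup G, K ≤ H → (K.subgroupOf H).Normal →
        (∀ x ∈ H, ∀ y ∈ H, x * y * x⁻¹ * y⁻¹ ∈ K) →
          (K.subgroupOf H).index ≤ 2 ^ (5 * 2 ^ n)) ∧
    ∀ c C : ℝ, (∀ (G : Type) [Group G] [Finite G], IsPGroup 2 G → Nontrivial G →
      ∃ H K : Subgroup G, K ≤ H ∧ (K.subgroupOf H).Normal ∧
        (∀ x ∈ H, ∀ y ∈ H, x * y * x⁻¹ * y⁻¹ ∈ K) ∧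
          (Nat.card G : ℝ) ≤ C * ((K.subgroupOf H).index : ℝ) ^ c) → 12 / 5 ≤ c := by
  have h1 : ∀ n : ℕ, ∃ (G : Type) (_ : Group G) (_ : Finite G),
      Nat.card G = 2 ^ (12 * 2 ^ n - 1) ∧
      ∀ H K : Subgroup G, K ≤ H → (K.subgroupOf H).Normal →
        (∀ x ∈ H, ∀ y ∈ H, x * y * x⁻¹ * y⁻¹ ∈ K) →
          (K.subgroupOf H).index ≤ 2 ^ (5 * 2 ^ n) := by
    intro n
    obtain ⟨G, hG, hF, h2, h3⟩ := tower n
    exact ⟨G, hG, hF, h2, fun H K hKH _ hab => index_le h3 H K hKH hab⟩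
  refine ⟨h1, fun c C hc => ?_⟩
  by_contra hlt
  rw [not_le] at hlt
  set c' : ℝ := max c 0 with hc'
  have hc0 : 0 ≤ c' := le_max_right _ _
  have hc1 : c' < 12 / 5 := max_lt hlt (by norm_num)
  have hδ : 0 < 12 - 5 * c' := by linarith
  have hC : 0 ≤ C := by
    obtain ⟨G, hG, hF, h2, -⟩ := h1 0
    have hp : IsPGroup 2 G := IsPGroup.of_card h2
    have hn : Nontrivial G := by
      rw [← Finite.one_lt_card_iff_nontrivial, h2]
      norm_num
    obtain ⟨H, K, -, -, -, h6⟩ := hc G hp hn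
    by_contra hneg
    rw [not_le] at hneg
    have h7 : (0 : ℝ) < Nat.card G := by exact_mod_cast Nat.card_pos
    have h8 : C * ((K.subgroupOf H).index : ℝ) ^ c ≤ 0 :=
      mul_nonpos_of_nonpos_of_nonneg hneg.le (Real.rpow_nonneg (Nat.cast_nonneg _) _)
    linarith
  -- the inequality for the groups of the tower
  have hkey : ∀ n : ℕ, (2 : ℝ) ^ ((2 : ℝ) ^ n * (12 - 5 * c')) ≤ 2 * C := by
    intro n
    obtain ⟨G, hG, hF, h2, h3⟩ := h1 n
    have hm : 1 ≤ 2 ^ n := Nat.one_le_two_pow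
    have hp : IsPGroup 2 G := IsPGroup.of_card h2
    have hn : Nontrivial G := by
      rw [← Finite.one_lt_card_iff_nontrivial, h2]
      exact Nat.one_lt_two_pow (by omega)
    obtain ⟨H, K, h4, h5, h5', h6⟩ := hc G hp hn
    have h7 := h3 H K h4 h5 h5'
    have h8 : (1 : ℝ) ≤ ((K.subgroupOf H).index : ℝ) := by
      have h9 : (K.subgroupOf H).index ≠ 0 := Subgroup.index_ne_zero_of_finite
      exact_mod_cast Nat.one_le_iff_ne_zero.2 h9
    have h9 : ((K.subgroupOf H).index : ℝ) ^ c ≤ ((2 : ℝ) ^ (5 * 2 ^ n)) ^ c' := by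
      calc ((K.subgroupOf H).index : ℝ) ^ c ≤ ((K.subgroupOf H).index : ℝ) ^ c' :=
            Real.rpow_le_rpow_of_exponent_le h8 (le_max_left _ _)
        _ ≤ ((2 : ℝ) ^ (5 * 2 ^ n)) ^ c' := by
            refine Real.rpow_le_rpow (Nat.cast_nonneg _) ?_ hc0
            exact_mod_cast h7
    have h10 : (Nat.card G : ℝ) = (2 : ℝ) ^ ((2 : ℝ) ^ n * 12 - 1) := by
      have h11 : ((12 * 2 ^ n - 1 : ℕ) : ℝ) = (2 : ℝ) ^ n * 12 - 1 := by
        rw [Nat.cast_sub (by omega)]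
        push_cast
        ring
      rw [h2, ← h11, Real.rpow_natCast]
      push_cast
      rfl
    have h11 : ((2 : ℝ) ^ (5 * 2 ^ n)) ^ c' = (2 : ℝ) ^ ((2 : ℝ) ^ n * (5 * c')) := by
      rw [← Real.rpow_natCast, ← Real.rpow_mul (by norm_num)]
      congr 1
      push_cast
      ring
    rw [h10] at h6
    have h12 : (2 : ℝ) ^ ((2 : ℝ) ^ n * 12 - 1) ≤ C * (2 : ℝ) ^ ((2 : ℝ) ^ n * (5 * c')) :=
      h6.trans ((mul_le_mul_of_nonneg_left h9 hC).trans_eq (by rw [h11]))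
    have h13 : (2 : ℝ) ^ ((2 : ℝ) ^ n * 12 - 1) =
        (2 : ℝ) ^ ((2 : ℝ) ^ n * (12 - 5 * c')) * (2 : ℝ) ^ ((2 : ℝ) ^ n * (5 * c')) / 2 := by
      rw [← Real.rpow_add (by norm_num), Real.rpow_sub_one (by norm_num)]
      congr 2
      ring
    rw [h13] at h12
    have h14 : (0 : ℝ) < (2 : ℝ) ^ ((2 : ℝ) ^ n * (5 * c')) := Real.rpow_pos_of_pos (by norm_num) _
    have h15 : (2 : ℝ) ^ ((2 : ℝ) ^ n * (12 - 5 * c')) * (2 : ℝ) ^ ((2 : ℝ) ^ n * (5 * c')) ≤
        (2 * C) * (2 : ℝ) ^ ((2 : ℝ) ^ n * (5 * c')) := by linarith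
    exact le_of_mul_le_mul_right h15 h14
  have hlim : Filter.Tendsto (fun n : ℕ => (2 : ℝ) ^ ((2 : ℝ) ^ n * (12 - 5 * c')))
      Filter.atTop Filter.atTop :=
    (tendsto_rpow_atTop_of_base_gt_one 2 (by norm_num)).comp
      ((tendsto_pow_atTop_atTop_of_one_lt (by norm_num)).atTop_mul_const hδ)
  obtain ⟨n, hn⟩ := (hlim.eventually_gt_atTop (2 * C)).exists
  exact absurd (hkey n) (not_le.2 hn)

end Pool.Agent.Results.MP_d12f76_al.TwelveFifths
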