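import Pool.Agent.UNI.Cayley

/-!
Abelian sections of unitary adjoint groups. Let `A` be a finite ring of odd order (associative,
without unit) in which every element is quasi-invertible (that is, `A` is nilpotent), with an
involution `*`. If a group `G` is isomorphic to the group of all `x` in `A` with
`x + x* + x x* = 0` under `x ∘ y = x + y + x y` (that is, to the group of all `g` in `1 + A` with
`g g* = 1`), then `G` has an abelian section of order at least `|G|^(1/1433)`.
-/

namespace Pool.Agent.Results.MP_d12f76_al.UnitaryGroups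

open Pool.Agent.MP_d12f76_al Pool.Agent.UNI

section sub

variable {G A : Type*} [Group G] [Finite G] [NonUnitalRing A] [StarRing A]

/-- The subgroup of `G` attached to an additive subgroup of skew elements. -/
def sub (X : G → A) (h1 : X 1 = 0) (E : AddSubgroup A)
    (hm : ∀ g h : G, X g ∈ E → X h ∈ E → X (g * h) ∈ E) : Subgroup G where
  carrier := {g | X g ∈ E}
  one_mem' := by
    change X 1 ∈ E
    rw [h1]
    exact E.zero_mem
  mul_mem' := fun {g h} hg hh => hm g h hg hh
  inv_mem' := by
    intro g hg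
    let S : Submonoid G :=
      { carrier := {g | X g ∈ E}
        one_mem' := by
          change X 1 ∈ E
          rw [h1]
          exact E.zero_mem
        mul_mem' := fun {g h} hg hh => hm g h hg hh }
    have hgS : g ∈ S := hg
    have h1 : g⁻¹ ∈ Submonoid.powers g :=
      mem_powers_iff_mem_zpowers.2 (Subgroup.inv_mem _ (Subgroup.mem_zpowers g))
    have h2 : Submonoid.powers g ≤ S := Submonoid.powers_le.2 hgS
    exact h2 h1

omit [Finite G] in
theorem card_set {X : G → A} (hinj : Function.Injective X) (hsurj : ∀ x ∈ Am A, ∃ g, X g = x)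
    {E : AddSubgroup A} (hE : E ≤ Am A) : Nat.card {g : G // X g ∈ E} = Nat.card E := by
  refine Nat.card_congr (Equiv.ofBijective (fun g => (⟨X g.1, g.2⟩ : E)) ⟨?_, ?_⟩)
  · rintro ⟨g, hg⟩ ⟨h, hh⟩ hgh
    have : X g = X h := congrArg Subtype.val hgh
    exact Subtype.ext (hinj this)
  · rintro ⟨x, hx⟩
    obtain ⟨g, rfl⟩ := hsurj x (hE hx)
    exact ⟨⟨g, hx⟩, rfl⟩

end sub

/-- Let `A` be a finite associative ring (not necessarily with unit) of odd order, with an
involution `*` (an additive antiautomorphism of order at most 2), such that for every `x` there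
is `y` with `x + y + x y = 0`. Let `G` be a nontrivial group and `e` an injective map from `G` to
`A` with `e (g h) = e g + e h + (e g) (e h)` whose image is the set of all `x` with
`x + x* + x x* = 0`. Then `G` has an abelian section `H / K` with `|G| ≤ |H/K| ^ 1433` and
`|G| < |H/K| ^ 1434`. -/
theorem result {G A : Type*} [Group G] [Nontrivial G] [NonUnitalRing A] [StarRing A] [Finite A]
    (hA : Odd (Nat.card A)) (hq : ∀ x : A, ∃ y, x + y + x * y = 0)
    (e : G → A) (hinj : Function.Injective e)
    (he : ∀ g h : G, e (g * h) = e g + e h + e g * e h)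
    (hr : ∀ x, x ∈ Set.range e ↔ x + star x + x * star x = 0) :
    ∃ H K : Subgroup G, K ≤ H ∧ (K.subgroupOf H).Normal ∧
      (∀ x ∈ H, ∀ y ∈ H, x * y * x⁻¹ * y⁻¹ ∈ K) ∧
      Nat.card G ≤ (K.subgroupOf H).index ^ 1433 ∧
      (Nat.card G : ℝ) < ((K.subgroupOf H).index : ℝ) ^ (1434 : ℝ) := by
  have : Finite G := Finite.of_injective e hinj
  obtain ⟨X, hXinj, hXA, hXsurj, hX1, hXmul⟩ := exists_param hA hq e hinj he hr
  -- a pair with maximal index
  let P := {p : AddSubgroup A × AddSubgroup A // Sec p.1 p.2}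
  have hne : Nonempty P := ⟨⟨(⊥, ⊥), sec_zero bot_le (by
    intro x hx y hy
    have hx0 : x = 0 := hx
    rw [hx0, zero_mul])⟩⟩
  obtain ⟨⟨⟨E, F⟩, hEF⟩, hmax⟩ := Finite.exists_max (fun p : P => p.1.2.relIndex p.1.1)
  have hEF' : Sec E F := hEF
  have hFE : F ≤ E := hEF'.1
  have hEA : E ≤ Am A := hEF'.2.1
  have hcardA : Nat.card (Am A) ≤ F.relIndex E ^ 1433 := by
    refine card_final hA hq ?_
    intro E' F' h'
    have h1 := hmax ⟨⟨E', F'⟩, h'⟩
    have h2 : Nat.card F' * F'.relIndex E' = Nat.card E' := by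
      rw [← AddSubgroup.relIndex_bot_left, ← AddSubgroup.relIndex_bot_left E']
      exact AddSubgroup.relIndex_mul_relIndex _ _ _ bot_le h'.1
    rw [← h2, mul_comm]
    exact Nat.mul_le_mul_right _ h1
  have hmE : ∀ g h : G, X g ∈ E → X h ∈ E → X (g * h) ∈ E := by
    intro g h hg hh
    have h1 := hFE (hXmul E F hEF' g h hg hh)
    have h2 : X (g * h) = (X (g * h) - X g - X h) + X g + X h := by abel
    rw [h2]
    exact add_mem (add_mem h1 hg) hh
  have hmF : ∀ g h : G, X g ∈ F → X h ∈ F → X (g * h) ∈ F := by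
    intro g h hg hh
    have h1 := hXmul E F hEF' g h (hFE hg) (hFE hh)
    have h2 : X (g * h) = (X (g * h) - X g - X h) + X g + X h := by abel
    rw [h2]
    exact add_mem (add_mem h1 hg) hh
  set H := sub X hX1 E hmE with hH
  set K := sub X hX1 F hmF with hK
  have memH : ∀ g, g ∈ H ↔ X g ∈ E := fun g => Iff.rfl
  have memK : ∀ g, g ∈ K ↔ X g ∈ F := fun g => Iff.rfl
  have hKH : K ≤ H := fun g hg => hFE hg
  have hcomm : ∀ x ∈ H, ∀ y ∈ H, x * y * x⁻¹ * y⁻¹ ∈ K := by
    intro x hx y hy
    set c := x * y * x⁻¹ * y⁻¹ with hc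
    have hcH : c ∈ H := H.mul_mem (H.mul_mem (H.mul_mem hx hy) (H.inv_mem hx)) (H.inv_mem hy)
    have hyx : y * x ∈ H := H.mul_mem hy hx
    have h1 : c * (y * x) = x * y := by rw [hc]; group
    have h2 := hXmul E F hEF' c (y * x) hcH hyx
    have h3 := hXmul E F hEF' x y hx hy
    have h4 := hXmul E F hEF' y x hy hx
    rw [h1] at h2
    have h5 : X c = (X (x * y) - X x - X y) - (X (y * x) - X y - X x) -
        (X (x * y) - X c - X (y * x)) := by abel
    rw [memK, h5]
    exact sub_mem (sub_mem h3 h4) h2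
  have hnormal : (K.subgroupOf H).Normal := by
    constructor
    rintro ⟨n, hn⟩ hnK ⟨g, hg⟩
    have hnK' : n ∈ K := hnK
    change g * n * g⁻¹ ∈ K
    have h1 := hcomm g hg n hn
    have h2 : g * n * g⁻¹ = (g * n * g⁻¹ * n⁻¹) * n := by group
    rw [h2]
    exact K.mul_mem h1 hnK'
  have hindex : (K.subgroupOf H).index = F.relIndex E := by
    have k1 : Nat.card K * K.relIndex H = Nat.card H := by
      rw [← Subgroup.relIndex_bot_left, ← Subgroup.relIndex_bot_left H]
      exact Subgroup.relIndex_mul_relIndex _ _ _ bot_le hKH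
    have k2 : Nat.card F * F.relIndex E = Nat.card E := by
      rw [← AddSubgroup.relIndex_bot_left, ← AddSubgroup.relIndex_bot_left E]
      exact AddSubgroup.relIndex_mul_relIndex _ _ _ bot_le hFE
    have k3 : Nat.card H = Nat.card E := card_set hXinj hXsurj hEA
    have k4 : Nat.card K = Nat.card F := card_set hXinj hXsurj (hFE.trans hEA)
    have hFpos : 0 < Nat.card F := Nat.card_pos
    rw [k3, k4, ← k2] at k1
    exact Nat.eq_of_mul_eq_mul_left hFpos k1
  have hGA : Nat.card G = Nat.card (Am A) := by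
    rw [← card_set hXinj hXsurj (le_refl (Am A))]
    exact Nat.card_congr (Equiv.subtypeUnivEquiv hXA).symm
  have hle : Nat.card G ≤ (K.subgroupOf H).index ^ 1433 := by
    rw [hGA, hindex]
    exact hcardA
  refine ⟨H, K, hKH, hnormal, hcomm, hle, ?_⟩
  have hone : 1 < Nat.card G := Finite.one_lt_card
  have hi : 1 < (K.subgroupOf H).index := by
    by_contra hcon
    have h1 : (K.subgroupOf H).index ≤ 1 := by omega
    have h2 : (K.subgroupOf H).index ^ 1433 ≤ 1 := by
      calc (K.subgroupOf H).index ^ 1433 ≤ 1 ^ 1433 := Nat.pow_le_pow_left h1 1433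
        _ = 1 := one_pow _
    omega
  have hlt : Nat.card G < (K.subgroupOf H).index ^ 1434 :=
    lt_of_le_of_lt hle (Nat.pow_lt_pow_right hi (by norm_num))
  have h22 : ((K.subgroupOf H).index : ℝ) ^ (1434 : ℝ) =
      (((K.subgroupOf H).index ^ 1434 : ℕ) : ℝ) := by
    rw [Nat.cast_pow, ← Real.rpow_natCast]
    norm_num
  rw [h22]
  exact_mod_cast hlt

end Pool.Agent.Results.MP_d12f76_al.UnitaryGroups
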